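import Pool.Agent.X55.Fam.Adm

/-!
# Almost primes between the squares of consecutive primes with prescribed digital functions

Let `S` be a strongly `b`-additive function with values in a finite abelian group `G` (for example the sum of the
digits in base `b`, or any vector of numbers of occurrences of nonzero digits, modulo some integers), which is not
degenerate: no nontrivial character of the group makes it a function of the residue of `n` modulo `b - 1`.
Let `k ≥ 1` and `W = (2 k)!`. For consecutive (or arbitrary) odd primes `p < q` we consider the `2 k` numbers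
`p ^ 2 + (n + j W)` and `q ^ 2 - (n + j W)`, `0 ≤ j < k`, of the interval between `p ^ 2` and `q ^ 2`. The number of
the `n` in an interval `(M, M + H]` with `S n = g` for which all of them have a bounded number of prime factors, all greater
than `H ^ δ`, has the expected order of magnitude, and the number of those for which all of them are primes is at
most of this order; the constants do not depend on `p` and `q`. The number of those for which none of them has a prime
factor up to `y` is given by an asymptotic formula, uniformly in `p` and `q`.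
The proof combines a sieve which is uniform in the removed residue classes and the exponential sums of digital
functions (in the starting files), over the blocks of a short interval.
-/

set_option autoImplicit false

namespace Pool.Agent.Results.MP_739ba1_nt.DigitalFunctions

open Finset Pool.Agent.X55.Forms

/-- the coefficients of the `2 k` forms -/
def ca (k : ℕ) : Fin (k + k) → ℤ := Fin.append (fun _ => 1) (fun _ => -1)

/-- the constants of the `2 k` forms: the forms are `p ^ 2 + (n + j W)` and `q ^ 2 - (n + j W)` for `j < k`, where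
`W = (2 k)!` -/
def cb (k p q : ℕ) : Fin (k + k) → ℤ :=
  Fin.append (fun j => (p : ℤ) ^ 2 + j * ((2 * k).factorial : ℤ)) (fun j => (q : ℤ) ^ 2 - j * ((2 * k).factorial : ℤ))

lemma ca_ne (k : ℕ) (i : Fin (k + k)) : ca k i ≠ 0 := by
  unfold ca
  refine Fin.addCases (fun j => ?_) (fun j => ?_) i
  · rw [Fin.append_left]
    norm_num
  · rw [Fin.append_right]
    norm_num

lemma adm (k : ℕ) {p q : ℕ} (hp : p.Prime) (hq : q.Prime) (h2 : 2 < p) (hpq : p < q) : Admissible (ca k) (cb k p q) := by
  refine adm_sym k _ _ ?_
  have h1 : Odd (p : ℤ) := by exact_mod_cast hp.odd_of_ne_two (by omega)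
  have h3 : Odd (q : ℤ) := by exact_mod_cast hq.odd_of_ne_two (by omega)
  exact (h1.pow).sub_odd (h3.pow)

theorem result : ∀ (G : Type) [AddCommGroup G] [Fintype G] (b : ℕ) (S : ℕ → G), 2 ≤ b → Digital b S → ∀ k : ℕ, 1 ≤ k →
    (∀ B : ℕ, ∃ (r : ℕ) (δ c C : ℝ) (H₀ : ℕ), 0 < δ ∧ 0 < c ∧ 0 < C ∧
      ∀ H : ℕ, H₀ ≤ H → ∀ (p q : ℕ), p.Prime → q.Prime → 2 < p → p < q → ∀ (M : ℕ) (g : G), p ^ 2 + M + H + k * (2 * k).factorial < q ^ 2 → 
      Bounds (ca k) (cb k p q) H r δ c C B M H (fun n => S n = g) (H / Fintype.card G)) ∧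
    -- the asymptotic formula
    (∀ η : ℝ, 0 < η → ∃ (δ : ℝ) (H₀ : ℕ), 0 < δ ∧
      ∀ H : ℕ, H₀ ≤ H → ∀ (p q : ℕ), p.Prime → q.Prime → 2 < p → p < q → ∀ (M : ℕ) (g : G), p ^ 2 + M + H + k * (2 * k).factorial < q ^ 2 → 
      ∀ y : ℕ, 3 ≤ y → (y : ℝ) ≤ (H : ℝ) ^ δ →
      Rough (ca k) (cb k p q) η y M H (fun n => S n = g) (H / Fintype.card G)) := by
  intro G _ _ b S hb hS k hk
  refine ⟨fun B => ?_, fun η hη => ?_⟩
  · obtain ⟨r, δ, c, C, H₀, hδ, hc, hC, h⟩ := digital b hb S hS (k + k) (by omega) B
    refine ⟨r, δ, c, C, H₀, hδ, hc, hC, ?_⟩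
    intro H hH p q hp hq h2 hpq M g _
    exact h H hH (ca k) (cb k p q) (ca_ne k) (adm k hp hq h2 hpq) M g
  · obtain ⟨δ, H₀, hδ, h⟩ := digitalA b hb S hS (k + k) (by omega) η hη
    refine ⟨δ, H₀, hδ, ?_⟩
    intro H hH p q hp hq h2 hpq M g _ y hy hyH
    exact h H hH (ca k) (cb k p q) (adm k hp hq h2 hpq) M g y hy hyH

end Pool.Agent.Results.MP_739ba1_nt.DigitalFunctions
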