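import Pool.Agent.X119.Pnt

set_option autoImplicit false

/-!
# The distances between the primes between the squares of consecutive primes

`prime j` is the `j`-th prime (`prime 0 = 2`). For every `ε > 0` there is `C` such that for ALL large `j`, with
`p = prime j` and `q = prime (j + 1)`: all but at most `ε (q² - p²) / log p` of the primes `prime m` between `p²`
and `q²` satisfy for ALL `k ≥ 1` with `C k log p ≤ q² - p²` simultaneously: the distance to the `k`-th next prime
and the distance to the `k`-th previous prime lie between `k log p / C` and `C k log p`.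
-/

namespace Pool.Agent.Results.MP_739ba1_nt.DistancesBetweenPrimeSquares

open Finset Filter

/-- The primes in increasing order, `prime 0 = 2`. -/
noncomputable def prime (m : ℕ) : ℕ := Nat.nth Nat.Prime m

/-- For all `k ≥ 1` with `C k log p ≤ Y` the distances of the `m`-th prime to the `k`-th prime after and to the
`k`-th prime before it lie between `k log p / C` and `C k log p`. -/
def Uniform (C : ℝ) (p Y m : ℕ) : Prop :=
  ∀ k : ℕ, 1 ≤ k → C * k * Real.log p ≤ Y →
    (k * Real.log p / C ≤ (prime (m + k) : ℝ) - prime m ∧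
      (prime (m + k) : ℝ) - prime m ≤ C * k * Real.log p) ∧
    k ≤ m ∧
    (k * Real.log p / C ≤ (prime m : ℝ) - prime (m - k) ∧
      (prime m : ℝ) - prime (m - k) ≤ C * k * Real.log p)

lemma uniform_of_dist {C : ℝ} (hC : 1 ≤ C) {n N Y m : ℕ} (hn : 0 < Real.log n)
    (h1 : Real.log n ≤ Real.log N) (h2 : Real.log N ≤ 2 * Real.log n)
    (h : Pool.Agent.X119.Steps.Dist C N Y m) : Uniform (2 * C) n Y m := by
  intro k hk hkY
  have hkr : (1 : ℝ) ≤ k := by exact_mod_cast hk
  have hC0 : 0 < C := by linarith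
  have e1 : C * k * Real.log N ≤ 2 * C * k * Real.log n := by
    calc C * k * Real.log N ≤ C * k * (2 * Real.log n) := by gcongr
      _ = _ := by ring
  have e2 : k * Real.log n / (2 * C) ≤ k * Real.log N / C := by
    rw [div_le_div_iff₀ (by positivity) hC0]
    calc k * Real.log n * C ≤ k * Real.log N * C := by gcongr
      _ ≤ k * Real.log N * (2 * C) := by
        have : 0 ≤ k * Real.log N := by
          have : 0 < Real.log N := by linarith
          positivity
        nlinarith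
  obtain ⟨⟨a1, a2⟩, a3, a4, a5⟩ := h k hk (e1.trans hkY)
  exact ⟨⟨e2.trans a1, a2.trans e1⟩, a3, e2.trans a4, a5.trans e1⟩

/-- **Brocard's intervals.** -/
theorem result (ε : ℝ) (hε : 0 < ε) :
    ∃ C : ℝ, 1 ≤ C ∧ ∀ᶠ j : ℕ in atTop,
      ({m : ℕ | prime j ^ 2 < prime m ∧ prime m < prime (j + 1) ^ 2 ∧
        ¬ Uniform C (prime j) (prime (j + 1) ^ 2 - prime j ^ 2) m}.ncard : ℝ) ≤
        ε * (prime (j + 1) ^ 2 - prime j ^ 2 : ℕ) / Real.log (prime j) := by
  obtain ⟨C, hC, h⟩ := Pool.Agent.X119.Steps.dist (1 / 3) (by norm_num) (by norm_num) ε hε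
  refine ⟨2 * C, by linarith, ?_⟩
  obtain ⟨X₀, hX₀⟩ := eventually_atTop.1 h
  have hpr : Tendsto (fun j : ℕ => prime j) atTop atTop :=
    (Nat.nth_strictMono Nat.infinite_setOfPred_prime).tendsto_atTop
  filter_upwards [hpr.eventually Pool.Agent.X119.Pnt.next_le, hpr.eventually_ge_atTop (max X₀ 3)]
    with j hnext hj
  have hnx := hnext j rfl
  obtain ⟨p, hp⟩ : ∃ p, p = prime j := ⟨_, rfl⟩
  obtain ⟨q, hq⟩ : ∃ q, q = prime (j + 1) := ⟨_, rfl⟩
  have hnx' : (q : ℝ) ≤ 7 / 5 * p := by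
    rw [hq, hp]
    exact hnx
  rw [← hp, ← hq]
  rw [← hp] at hj
  have hp0 : X₀ ≤ p := (le_max_left _ _).trans hj
  have hp3 : 3 ≤ p := (le_max_right _ _).trans hj
  have hpq : p < q := by
    rw [hp, hq]
    exact Nat.nth_strictMono Nat.infinite_setOfPred_prime (Nat.lt_succ_self j)
  have hpr3 : (3 : ℝ) ≤ p := by exact_mod_cast hp3
  have hY1 : q ^ 2 ≤ 2 * p ^ 2 := by
    have h1 : (q : ℝ) ^ 2 ≤ 2 * (p : ℝ) ^ 2 := by
      have hq0 : (0 : ℝ) ≤ q := Nat.cast_nonneg _
      nlinarith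
    exact_mod_cast h1
  have hY2 : p ≤ q ^ 2 - p ^ 2 := by
    have : (p + 1) ^ 2 ≤ q ^ 2 := Nat.pow_le_pow_left hpq 2
    have h2 : (p + 1) ^ 2 = p ^ 2 + 2 * p + 1 := by ring
    omega
  have hl0 : 0 < Real.log p := Real.log_pos (by linarith)
  have hlN : Real.log ((p ^ 2 : ℕ) : ℝ) = 2 * Real.log p := by
    push_cast
    rw [Real.log_pow]
    push_cast
    ring
  have hpow : ((p ^ 2 : ℕ) : ℝ) ^ ((1 : ℝ) / 3) ≤ (q ^ 2 - p ^ 2 : ℕ) := by
    have h1 : (p : ℝ) ≤ (q ^ 2 - p ^ 2 : ℕ) := by exact_mod_cast hY2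
    refine le_trans ?_ h1
    push_cast
    calc ((p : ℝ) ^ 2) ^ ((1 : ℝ) / 3) = (p : ℝ) ^ ((2 : ℝ) / 3) := by
          rw [← Real.rpow_natCast, ← Real.rpow_mul (by linarith)]
          norm_num
      _ ≤ (p : ℝ) ^ (1 : ℝ) := Real.rpow_le_rpow_of_exponent_le (by linarith) (by norm_num)
      _ = p := Real.rpow_one _
  have hpp : p ≤ p ^ 2 := by nlinarith
  have h3 := hX₀ (p ^ 2) (hp0.trans hpp) (q ^ 2 - p ^ 2) hpow (by omega)
  refine le_trans ?_ (h3.trans ?_)
  · refine Nat.cast_le.2 ?_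
    apply Set.ncard_le_ncard
    · rintro m ⟨m1, m2, m3⟩
      refine ⟨m1, ?_, fun hD => m3 (uniform_of_dist hC hl0 (by rw [hlN]; linarith) (by rw [hlN]) hD)⟩
      have : prime m = Pool.Agent.X119.Steps.pr m := rfl
      omega
    · apply (Set.finite_Iic (p ^ 2 + (q ^ 2 - p ^ 2))).subset
      rintro m ⟨m1, m2, -⟩
      have : m ≤ Pool.Agent.X119.Steps.pr m := by
        have h1 := Pool.Agent.X119.Steps.count_pr m
        have h2 := Nat.count_le (p := Nat.Prime) (n := Pool.Agent.X119.Steps.pr m)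
        omega
      exact this.trans m2
  · rw [hlN]
    apply div_le_div_of_nonneg_left (by positivity) hl0 (by linarith)

end Pool.Agent.Results.MP_739ba1_nt.DistancesBetweenPrimeSquares
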