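import Pool.Agent.X55.Fam.Adm

/-!
# Almost primes between the squares of consecutive primes with prescribed residues modulo a large prime

Let `P` be a large prime. Let `k ≥ 1` and `W = (2 k)!`. For consecutive (or arbitrary) odd primes `p < q` we consider the `2 k` numbers
`p ^ 2 + (n + j W)` and `q ^ 2 - (n + j W)`, `0 ≤ j < k`, of the interval between `p ^ 2` and `q ^ 2`. The number of
the `n` in an interval `(M, M + H]` for which the residue of `n` modulo `P` is restricted for which all of them have a bounded number of prime factors, all greater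
than `P ^ δ`, has the expected order of magnitude, and the number of those for which all of them are primes is at
most of this order; the constants do not depend on `p` and `q`. The number of those for which none of them has a prime
factor up to `y` is given by an asymptotic formula, uniformly in `p` and `q`.
This holds for the `n`
* of an ARBITRARY set `A` of residues modulo `P` whose Fourier coefficients are at most `Γ`, in ARBITRARY intervals of
  a length `H ≤ P` with `|A| H ≥ Γ P ^ (1 + ε)`;
* of a coset of a subgroup `S` of the residues, in the intervals of a length `H ≤ P` with `|S| H ≥ P ^ (3 / 2 + ε)`;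
* which are primitive roots of `P`, in the intervals of a length `H` with `P ^ (1 / 2 + ε) ≤ H ≤ P`;
* which are on the modular hyperbola `n m = u` modulo `P` with `n` and `m` in intervals of the lengths `H`, `K ≤ P` with
  `H K ≥ P ^ (3 / 2 + ε)`.

The proof combines a sieve which is uniform in the removed residue classes, incomplete sums, Weil's bound for the
Kloosterman sums and a Moebius formula for primitive roots.
-/

set_option autoImplicit false

namespace Pool.Agent.Results.MP_739ba1_nt.ResiduesModuloPrimes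

open Finset Pool.Agent.X55.Forms

/-- the coefficients of the `2 k` forms -/
def ca (k : ℕ) : Fin (k + k) → ℤ := Fin.append (fun _ => 1) (fun _ => -1)

/-- the constants of the `2 k` forms: the forms are `p ^ 2 + (n + j W)` and `q ^ 2 - (n + j W)` for `j < k`, where
`W = (2 k)!` -/
def cb (k p q : ℕ) : Fin (k + k) → ℤ :=
  Fin.append (fun j => (p : ℤ) ^ 2 + j * ((2 * k).factorial : ℤ)) (fun j => (q : ℤ) ^ 2 - j * ((2 * k).factorial : ℤ))

lemma ca_ne (k : ℕ) (i : Fin (k + k)) : ca k i ≠ 0 := by
  unfold ca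
  refine Fin.addCases (fun j => ?_) (fun j => ?_) i
  · rw [Fin.append_left]
    norm_num
  · rw [Fin.append_right]
    norm_num

lemma adm (k : ℕ) {p q : ℕ} (hp : p.Prime) (hq : q.Prime) (h2 : 2 < p) (hpq : p < q) : Admissible (ca k) (cb k p q) := by
  refine adm_sym k _ _ ?_
  have h1 : Odd (p : ℤ) := by exact_mod_cast hp.odd_of_ne_two (by omega)
  have h3 : Odd (q : ℤ) := by exact_mod_cast hq.odd_of_ne_two (by omega)
  exact (h1.pow).sub_odd (h3.pow)

theorem result : ∀ k : ℕ, 1 ≤ k →
    (∀ ε : ℝ, 0 < ε → ∀ B : ℕ, ∃ (r : ℕ) (δ c C : ℝ) (P₀ : ℕ), 0 < δ ∧ 0 < c ∧ 0 < C ∧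
      ∀ P : ℕ, P₀ ≤ P → ∀ [Fact P.Prime] (p q : ℕ), p.Prime → q.Prime → 2 < p → p < q →
      Residues ε P (fun M H R X => p ^ 2 + M + H + k * (2 * k).factorial < q ^ 2 → Bounds (ca k) (cb k p q) P r δ c C B M H R X)) ∧
    -- the asymptotic formula
    (∀ ε η : ℝ, 0 < ε → 0 < η → ∃ (δ : ℝ) (P₀ : ℕ), 0 < δ ∧
      ∀ P : ℕ, P₀ ≤ P → ∀ [Fact P.Prime] (p q : ℕ), p.Prime → q.Prime → 2 < p → p < q → ∀ y : ℕ, 3 ≤ y → (y : ℝ) ≤ (P : ℝ) ^ δ →
      Sets ε P (fun M H R X => p ^ 2 + M + H + k * (2 * k).factorial < q ^ 2 → Rough (ca k) (cb k p q) η y M H R X)) := by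
  intro k hk
  refine ⟨fun ε hε B => ?_, fun ε η hε hη => ?_⟩
  · obtain ⟨r, δ, c, C, P₀, hδ, hc, hC, h⟩ := residues (k + k) (by omega) ε hε B
    refine ⟨r, δ, c, C, P₀, hδ, hc, hC, ?_⟩
    intro P hP _ p q hp hq h2 hpq
    exact (h P hP (ca k) (cb k p q) (ca_ne k) (adm k hp hq h2 hpq)).mono fun M H R X _ hQ _ => hQ
  · obtain ⟨δ, P₀, hδ, h⟩ := residuesA (k + k) (by omega) ε η hε hη
    refine ⟨δ, P₀, hδ, ?_⟩
    intro P hP _ p q hp hq h2 hpq y hy hyP
    exact (h P hP (ca k) (cb k p q) (adm k hp hq h2 hpq) y hy hyP).mono fun M H R X _ hQ _ => hQ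

end Pool.Agent.Results.MP_739ba1_nt.ResiduesModuloPrimes
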